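import Pool.Agent.Work.MP_0890ba_co.BD.Layers
import Pool.Agent.Work.MP_0890ba_co.BD.Five
import Pool.Agent.Work.MP_0890ba_co.BD.Chsf

/-!
# Planar graphs of bounded degree, and layered planar graphs, have strong fractional choice number
less than five, uniformly
-/

namespace Pool.Agent.Results.MP_0890ba_co.LayeredClass

open Pool.Agent.Work.MP_0890ba_co

/-- `G` is `Δ`-layered: there are layers such that every vertex has at most `Δ` neighbours in its
own layer, and at most one vertex in lower layers is adjacent to a given vertex, or to an end of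
a given edge inside a layer. -/
def Layered {V : Type} (Δ : ℕ) (G : SimpleGraph V) : Prop :=
  ∃ layer : V → ℕ, (∀ v, {w | layer w = layer v ∧ G.Adj v w}.ncard ≤ Δ) ∧
    ∀ v v' u u', (v = v' ∨ G.Adj v v') → layer v = layer v' → G.Adj v u → G.Adj v' u' →
      layer u < layer v → layer u' < layer v' → u = u'

/-- Graphs of maximum degree at most `Δ` are `Δ`-layered. -/
theorem layered_of_degree {V : Type} {Δ : ℕ} {G : SimpleGraph V}
    (h : ∀ v, (G.neighborSet v).ncard ≤ Δ) : Layered Δ G := by
  refine ⟨fun _ => 0, fun v => ?_, fun v v' u u' _ _ _ _ h5 _ => absurd h5 (lt_irrefl 0)⟩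
  have h1 : {w | (0 : ℕ) = 0 ∧ G.Adj v w} = G.neighborSet v := by
    ext w
    exact ⟨fun h => h.2, fun h => ⟨rfl, h⟩⟩
  rw [h1]
  exact h v

/-- Graphs in which any two vertices of degree more than `Δ` have distance at least `4` are
`Δ`-layered. -/
theorem layered_of_far {V : Type} [Finite V] {Δ : ℕ} {G : SimpleGraph V}
    (h : ∀ u v, Δ < (G.neighborSet u).ncard → Δ < (G.neighborSet v).ncard → u ≠ v →
      ∀ p : G.Walk u v, 4 ≤ p.length) : Layered Δ G := by
  classical
  have hlt : ∀ v, (if Δ < (G.neighborSet v).ncard then 0 else 1) < 1 →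
      Δ < (G.neighborSet v).ncard := by
    intro v hv
    by_contra hn
    rw [if_neg hn] at hv
    exact lt_irrefl _ hv
  have hle : ∀ v, (if Δ < (G.neighborSet v).ncard then 0 else 1) ≤ 1 := by
    intro v
    split_ifs <;> omega
  refine ⟨fun v => if Δ < (G.neighborSet v).ncard then 0 else 1, fun v => ?_, ?_⟩
  · by_cases hv : Δ < (G.neighborSet v).ncard
    · have h0 : {w | (if Δ < (G.neighborSet w).ncard then 0 else 1) =
          (if Δ < (G.neighborSet v).ncard then 0 else 1) ∧ G.Adj v w} = ∅ := by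
        ext w
        constructor
        · rintro ⟨h1, h2⟩
          rw [if_pos hv] at h1
          have h3 := h v w hv (hlt w (by omega)) h2.ne (.cons h2 .nil)
          rw [SimpleGraph.Walk.length_cons, SimpleGraph.Walk.length_nil] at h3
          omega
        · exact fun h1 => h1.elim
      rw [h0, Set.ncard_empty]
      exact Nat.zero_le _
    · refine (Set.ncard_le_ncard ?_ (Set.toFinite _)).trans (not_lt.1 hv)
      exact fun w hw => hw.2
  · intro v v' u u' hv _ h1 h2 h3 h4
    by_contra hne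
    have hu : Δ < (G.neighborSet u).ncard := hlt u (h3.trans_le (hle v))
    have hu' : Δ < (G.neighborSet u').ncard := hlt u' (h4.trans_le (hle v'))
    rcases hv with rfl | hv
    · have h5 := h u u' hu hu' hne (.cons h1.symm (.cons h2 .nil))
      simp only [SimpleGraph.Walk.length_cons, SimpleGraph.Walk.length_nil] at h5
      omega
    · have h5 := h u u' hu hu' hne (.cons h1.symm (.cons hv (.cons h2 .nil)))
      simp only [SimpleGraph.Walk.length_cons, SimpleGraph.Walk.length_nil] at h5
      omega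

/-- For all `Δ` and `η > 0` there are `b₀` and `c > 0` such that every `4`-colourable finite planar
graph which is `Δ`-layered is `(a, b)`-choosable for `b ≥ b₀`, `a ≥ ((5 + √21) / 2 + η) b`, and has
strong fractional choice number at most `5 - c`. -/
theorem result (Δ : ℕ) (η : ℝ) (hη : 0 < η) :
    ∃ (b₀ : ℕ) (c : ℝ), 0 < c ∧ ∀ (V : Type) [Finite V] (G : SimpleGraph V),
      Planar G → G.Colorable 4 → Layered Δ G →
      (∀ a b : ℕ, b₀ ≤ b → ((5 + √21) / 2 + η) * b ≤ a → Choosable G a b) ∧
      chsf G ≤ ((5 - c : ℝ) : EReal) := by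
  obtain ⟨hα1, hα2⟩ := BDP.Far.alpha_cond hη
  obtain ⟨b₁, h1⟩ := BDP.Far.choosable_layers 3 Δ hα1 hα2
  have h21 : √21 < 4.6 := by
    rw [Real.sqrt_lt' (by norm_num)]
    norm_num
  obtain ⟨hβ1, hβ2⟩ := BDP.Far.alpha_cond (show (0 : ℝ) < 0.1 by norm_num)
  obtain ⟨b₂, h2⟩ := BDP.Far.choosable_layers 3 Δ hβ1 hβ2
  have hγ : (5 + √21) / 2 + 0.1 < 5 := by
    norm_num at h21 ⊢
    linarith
  refine ⟨b₁, BDP.gain b₂ ((5 + √21) / 2 + 0.1), BDP.gain_pos b₂ hγ, ?_⟩
  rintro V _ G hG hcol ⟨layer, hl1, hl2⟩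
  have h3 := BDP.not_hasK3Minor G hG
  have hb : ∀ v u u', G.Adj v u → G.Adj v u' → layer u < layer v → layer u' < layer v → u = u' :=
    fun v u u' e1 e2 e3 e4 => hl2 v v u u' (Or.inl rfl) rfl e1 e2 e3 e4
  have hc : ∀ v v' u u', G.Adj v v' → layer v = layer v' → G.Adj v u → G.Adj v' u' →
      layer u < layer v → layer u' < layer v' → u = u' :=
    fun v v' u u' e0 e e1 e2 e3 e4 => hl2 v v' u u' (Or.inr e0) e e1 e2 e3 e4
  exact ⟨h1 V G h3 hcol layer hl1 hb hc,
    BDP.chsf_le_gain (h2 V G h3 hcol layer hl1 hb hc) (BDP.choosable_five_planar hG)⟩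

end Pool.Agent.Results.MP_0890ba_co.LayeredClass
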