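import Pool.Agent.Work.MP_0890ba_co.Main

/-!
# The strong fractional choice number of planar graphs is at least `4 + 2 / 5`
-/

namespace Pool.Agent.Results.MP_0890ba_co.LowerBound

open Pool.Agent.Work.MP_0890ba_co

lemma exists_planar (m e : ℕ) (h : 5 * e < 2 * m) :
    ∃ (V : Type) (_ : Fintype V) (G : SimpleGraph V), Planar G ∧
      ¬ Choosable G (4 * m + e) m := by
  obtain ⟨n, hn⟩ := not_choosable m e h
  exact ⟨Vx n, inferInstance, T n, ⟨pos, planar_T n⟩, hn⟩

lemma chsf_ge {V : Type} {G : SimpleGraph V} {a b : ℕ} (hb : 0 < b) (hab : b ≤ a)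
    (h : ¬ Choosable G a b) : (((a : ℝ) / b : ℝ) : EReal) ≤ chsf G := by
  refine le_iInf fun r => le_iInf fun hr => ?_
  rw [EReal.coe_le_coe_iff]
  by_contra hlt
  exact h (hr a b hb hab (le_of_lt (not_le.1 hlt)))

lemma chsfPlanar_ge (m e : ℕ) (hm : 0 < m) (h : 5 * e < 2 * m) :
    (((4 : ℝ) + e / m : ℝ) : EReal) ≤ chsfPlanar := by
  obtain ⟨V, hV, G, hG, hn⟩ := exists_planar m e h
  have h1 := chsf_ge hm (by omega) hn
  have h2 : ((4 * m + e : ℕ) : ℝ) / m = 4 + e / m := by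
    have : (m : ℝ) ≠ 0 := by positivity
    push_cast
    field_simp
  rw [h2] at h1
  refine h1.trans ?_
  unfold chsfPlanar
  exact le_iSup_of_le V (le_iSup_of_le hV (le_iSup_of_le G (le_iSup_of_le hG le_rfl)))

/-- For every `m ≥ 1` some finite planar graph is not `(4 m + ⌊(2 m - 1) / 5⌋, m)`-choosable, and
the strong fractional choice number of the class of planar graphs is at least `4 + 2 / 5`. -/
theorem result :
    (∀ m : ℕ, 1 ≤ m → ∃ (V : Type) (_ : Fintype V) (G : SimpleGraph V), Planar G ∧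
      ¬ Choosable G (4 * m + (2 * m - 1) / 5) m) ∧
    ((4 + 2 / 5 : ℝ) : EReal) ≤ chsfPlanar := by
  refine ⟨fun m hm => exists_planar m _ (by omega), ?_⟩
  by_contra hlt
  obtain ⟨r, hr1, hr2⟩ := EReal.lt_iff_exists_real_btwn.1 (not_le.1 hlt)
  rw [EReal.coe_lt_coe_iff] at hr2
  obtain ⟨k, hk⟩ := exists_nat_gt (1 / (4 + 2 / 5 - r))
  have hpos : 0 < 4 + 2 / 5 - r := by linarith
  have hk0 : (0 : ℝ) < k := lt_of_le_of_lt (by positivity) hk
  have hk1 : 0 < k := by exact_mod_cast hk0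
  have h1 := chsfPlanar_ge (5 * k) (2 * k - 1) (by omega) (by omega)
  have h2 := (h1.trans_lt hr1)
  rw [EReal.coe_lt_coe_iff] at h2
  have h3 : ((2 * k - 1 : ℕ) : ℝ) = 2 * k - 1 := by
    rw [Nat.cast_sub (by omega)]; push_cast; ring
  rw [h3] at h2
  push_cast at h2
  have h4 : (4 : ℝ) + (2 * k - 1) / (5 * k) = 4 + 2 / 5 - 1 / (5 * k) := by
    field_simp
    ring
  rw [h4] at h2
  have h5 : 1 < (4 + 2 / 5 - r) * k := by
    rw [div_lt_iff₀ hpos] at hk
    linarith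
  have h6 : 1 / (5 * (k : ℝ)) < 4 + 2 / 5 - r := by
    rw [div_lt_iff₀ (by positivity)]
    nlinarith
  linarith

end Pool.Agent.Results.MP_0890ba_co.LowerBound
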