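import Pool.Agent.Work.MP_0890ba_co.DS.Final

/-!
# The strong fractional choice number of planar graphs is less than five
-/

namespace Pool.Agent.Results.MP_0890ba_co.PlanarBelowFive

open Pool.Agent.Work.MP_0890ba_co

/-- The strong fractional choice number of the class of all finite planar graphs is less than
five. Moreover, for every `η > 0` there is `b₀` such that all finite planar graphs are
`(a, b)`-choosable for all `b ≥ b₀` and all `a ≥ (5 - 3 / 16203 + η) b`; in particular there is
`m ≥ 1` such that all finite planar graphs are `(5 m - 1, m)`-choosable. -/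
theorem result :
    chsfPlanar < 5 ∧
    (∀ η : ℝ, 0 < η → ∃ b₀ : ℕ, ∀ (V : Type) [Finite V] (G : SimpleGraph V), Planar G →
      ∀ a b : ℕ, b₀ ≤ b → (5 - 3 / 16203 + η) * b ≤ a → Choosable G a b) ∧
    ∃ m : ℕ, 0 < m ∧ ∀ (V : Type) [Finite V] (G : SimpleGraph V), Planar G →
      Choosable G (5 * m - 1) m :=
  ⟨DS.chsfPlanar_lt, fun _ hη => DS.full hη, DS.five_sub_one⟩

end Pool.Agent.Results.MP_0890ba_co.PlanarBelowFive
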