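import Pool.Agent.Work.MP_0890ba_co.BD.Main
import Pool.Agent.Work.MP_0890ba_co.BD.Planar33

/-!
# Multiple list colouring of planar graphs of bounded degree: a uniform ratio
-/

namespace Pool.Agent.Results.MP_0890ba_co.UniformRatio

open Pool.Agent.Work.MP_0890ba_co

/-- For all `n`, `Δ`, `r` and `ε > 0` there is `b₀` such that every finite graph of maximum degree
at most `Δ` and fractional chromatic number at most `r` which is planar, or has no complete
bipartite minor with parts of `3` and `n` vertices, is `(a, b)`-choosable for all `b ≥ b₀` and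
`a ≥ (r + ε) b`. -/
theorem result (n Δ : ℕ) (r ε : ℝ) (hε : 0 < ε) :
    ∃ b₀ : ℕ, ∀ (V : Type) [Finite V] (G : SimpleGraph V),
      (Planar G ∨ ¬HasK3Minor n G) → (∀ v, (G.neighborSet v).ncard ≤ Δ) → FracColourable G r →
      ∀ a b : ℕ, b₀ ≤ b → (r + ε) * b ≤ a → Choosable G a b := by
  obtain ⟨b₁, h1⟩ := BDP.choosable_of_noMinor n Δ r hε
  obtain ⟨b₂, h2⟩ := BDP.choosable_of_noMinor 3 Δ r hε
  refine ⟨max b₁ b₂, ?_⟩
  intro V _ G hG hΔ hr a b hb hab
  rcases hG with hG | hG
  · exact h2 V G hΔ (BDP.not_hasK3Minor G hG) hr a b ((le_max_right _ _).trans hb) hab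
  · exact h1 V G hΔ hG hr a b ((le_max_left _ _).trans hb) hab

end Pool.Agent.Results.MP_0890ba_co.UniformRatio
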